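import Pool.Agent.Helper54.S4.Stmts

/-! Realizability of simplicial 4-polytopes: signs of increasing quadruples. -/

set_option autoImplicit false

namespace Pool.Agent.Helper54.S4

open Finset Pool.Agent.Helper54.SP

theorem hst_aff (a b : ℝ) (ha : 0 < a) : ∀ᶠ Z : ℝ in Filter.atTop, 0 < a * Z + b := by
  filter_upwards [Filter.eventually_gt_atTop (-b / a)] with Z hZ
  rw [div_lt_iff₀ ha] at hZ
  linarith [mul_comm a Z]

theorem hst_not (b : Bool) : sb (!b) = - sb b := by
  cases b <;> simp [sb]

theorem hst_ev (h1 : ST_DQ4) (Γ : List Gt) (nw : ℕ) (y x z : ℕ → ℝ)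
    (hS : St Γ nw y (4 * Γ.length) x z) :
    ∀ᶠ Z : ℝ in Filter.atTop, ∀ p ∈ Finset.range (N4 Γ), ∀ q ∈ Finset.range (N4 Γ),
      ∀ r ∈ Finset.range (N4 Γ), ∀ s ∈ Finset.range (N4 Γ), p < q → q < r → r < s →
        (p = 1 ∨ q = 1) → 0 < sb (c4 Γ nw p q r s) *
          dt 4 (qv (N4 Γ) x y (fun i => if i = 1 then Z else z i)) [p, q, r, s] := by
  have hN : N4 Γ = 3 + 6 * (4 * Γ.length) := by unfold N4; ring
  refine (Filter.eventually_all_finset _).2 fun p hp => ?_
  refine (Filter.eventually_all_finset _).2 fun q hq => ?_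
  refine (Filter.eventually_all_finset _).2 fun r hr => ?_
  refine (Filter.eventually_all_finset _).2 fun s hs => ?_
  rw [Finset.mem_range] at hp hq hr hs
  by_cases hpq : p < q
  swap
  · exact Filter.Eventually.of_forall fun Z h => absurd h hpq
  by_cases hqr : q < r
  swap
  · exact Filter.Eventually.of_forall fun Z _ h => absurd h hqr
  by_cases hrs : r < s
  swap
  · exact Filter.Eventually.of_forall fun Z _ _ h => absurd h hrs
  have hsN : s ≠ N4 Γ := by omega
  by_cases e1 : p = 1
  · have hc : c4 Γ nw p q r s = !s3 Γ nw q r s := by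
      unfold c4
      rw [if_neg hsN, if_pos e1]
    have hpos := hS.t3 q r s (by omega) (by omega) hqr hrs (by omega)
    have hd := (h1 0 x y z).1 q r s (by omega) (by omega) (by omega)
    filter_upwards [hst_aff _ (-(sb (s3 Γ nw q r s)) * (z q * dt 3 (pl x y) [p, r, s] -
      z r * dt 3 (pl x y) [p, q, s] + z s * dt 3 (pl x y) [p, q, r])) hpos] with Z hZ _ _ _ _
    rw [hc, hst_not, (h1 (N4 Γ) x y (fun i => if i = 1 then Z else z i)).2.1 p q r s hp hq hr hs,
      hd, if_pos e1, if_neg (by omega : ¬ q = 1), if_neg (by omega : ¬ r = 1),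
      if_neg (by omega : ¬ s = 1)]
    linarith
  by_cases e2 : q = 1
  · have e0 : p = 0 := by omega
    have hc : c4 Γ nw p q r s = s3 Γ nw p r s := by
      unfold c4
      rw [if_neg hsN, if_neg e1, if_pos e2]
    have hpos := hS.t3 p r s (by omega) (by omega) (by omega) hrs (by omega)
    have hd := (h1 0 x y z).1 p r s (by omega) (by omega) (by omega)
    filter_upwards [hst_aff _ (sb (s3 Γ nw p r s) * (-z p * dt 3 (pl x y) [q, r, s] -
      z r * dt 3 (pl x y) [p, q, s] + z s * dt 3 (pl x y) [p, q, r])) hpos] with Z hZ _ _ _ _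
    rw [hc, (h1 (N4 Γ) x y (fun i => if i = 1 then Z else z i)).2.1 p q r s hp hq hr hs,
      hd, if_neg e1, if_pos e2, if_neg (by omega : ¬ r = 1), if_neg (by omega : ¬ s = 1)]
    linarith
  · exact Filter.Eventually.of_forall fun Z _ _ _ h => absurd h (by omega)

theorem st_HST (h1 : ST_DQ4) (h2 : ST_LV4) (h3 : ST_DT3) : ST_HST := by
  intro Γ nw y hW hY x z hS
  have hN : N4 Γ = 3 + 6 * (4 * Γ.length) := by unfold N4; ring
  obtain ⟨Z, hZ, hZ0⟩ := ((hst_ev h1 Γ nw y x z hS).and (Filter.eventually_gt_atTop 0)).exists
  refine ⟨fun i => if i = 1 then Z else z i, ?_, ?_⟩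
  · intro p hp
    by_cases e : p = 1
    · simp only [e, if_true]
      exact hZ0
    · simp only [e, if_false]
      exact hS.zp p (by omega)
  · intro p q r s hpq hqr hrs hs
    by_cases es : s = N4 Γ
    · have hc : c4 Γ nw p q r s = s3 Γ nw p q r := by
        unfold c4
        rw [if_pos es]
      rw [hc, es, (h1 (N4 Γ) x y (fun i => if i = 1 then Z else z i)).2.2 p q r (by omega)
        (by omega) (by omega)]
      by_cases e1 : p = 1
      · have hs3 : s3 Γ nw p q r = decide (lv Γ nw r < lv Γ nw q) := by
          unfold s3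
          rw [if_neg (by omega), if_pos e1]
        rw [hs3, e1, (h3 x y).2.2.1 q r (by omega) (by omega)]
        by_cases hl : lv Γ nw r < lv Γ nw q
        · have := hY.yo r q (by omega) (by omega) (by omega) (by omega) hl
          simp only [hl, decide_true, sb, if_true]
          linarith
        · have hne : lv Γ nw q ≠ lv Γ nw r := fun h =>
            absurd ((h2 Γ nw hW).2.2.2.1 q r (by omega) (by omega) (by omega) (by omega) h)
              (by omega)
          have := hY.yo q r (by omega) (by omega) (by omega) (by omega) (by omega)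
          simp only [hl, decide_false, sb]
          simp only [Bool.false_eq_true, if_false]
          linarith
      by_cases e2 : q = 1
      · have e0 : p = 0 := by omega
        have hs3 : s3 Γ nw p q r = false := by
          unfold s3
          rw [if_pos e0]
          simp [e2]
        rw [hs3, e0, e2, (h3 x y).1 r (by omega)]
        simp [sb]
      · rw [(h1 0 x y z).1 p q r e1 e2 (by omega)]
        exact hS.t3 p q r e1 e2 hpq hqr (by omega)
    · by_cases e : p = 1 ∨ q = 1
      · exact hZ p (Finset.mem_range.2 (by omega)) q (Finset.mem_range.2 (by omega)) r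
          (Finset.mem_range.2 (by omega)) s (Finset.mem_range.2 (by omega)) hpq hqr hrs e
      · push Not at e
        have := hS.t4 p q r s e.1 e.2 hpq hqr hrs (by omega)
        rw [(h1 (N4 Γ) x y (fun i => if i = 1 then Z else z i)).2.1 p q r s (by omega) (by omega)
          (by omega) (by omega), (h1 0 x y z).1 q r s (by omega) (by omega) (by omega),
          (h1 0 x y z).1 p r s (by omega) (by omega) (by omega),
          (h1 0 x y z).1 p q s (by omega) (by omega) (by omega),
          (h1 0 x y z).1 p q r (by omega) (by omega) (by omega), if_neg e.1, if_neg e.2,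
          if_neg (by omega : ¬ r = 1), if_neg (by omega : ¬ s = 1)]
        unfold QQ at this
        exact this

end Pool.Agent.Helper54.S4
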